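import Pool.Agent.H.MP_3eb465_an.D

set_option autoImplicit false

open scoped Laplacian ContDiff

namespace Pool.Agent.Results.MP_3eb465_an.No

abbrev E (d : ℕ) := EuclideanSpace ℝ (Fin d)

/-- Positive reaction with `γ`-Hoelder derivative. -/
def React (γ : ℝ) (f : ℝ → ℝ) : Prop :=
  ContDiff ℝ 1 f ∧ (∃ C : ℝ, ∀ s t, |deriv f s - deriv f t| ≤ C * |s - t| ^ γ) ∧ f 0 = 0 ∧
    f 1 = 0 ∧ (∀ t, 0 < t → t < 1 → 0 < f t) ∧ 0 < deriv f 0 ∧ (∀ t, 1 < t → f t < 0) ∧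
    deriv f 1 < 0

/-- The first `n` coordinates. -/
def hd {n : ℕ} (y : E (n + 1)) : E n := WithLp.toLp 2 fun i => y (Fin.castSucc i)

/-- Epigraph. -/
def Epi {n : ℕ} (φ : E n → ℝ) : Set (E (n + 1)) := {x | φ (hd x) < x (Fin.last n)}

section
variable {V W : Type} [NormedAddCommGroup V] [NormedSpace ℝ V] [NormedAddCommGroup W]

/-- Second derivative. -/
noncomputable def D2 (ψ : V → ℝ) : V → V →L[ℝ] V →L[ℝ] ℝ := fderiv ℝ (fderiv ℝ ψ)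

/-- On the ball of radius `r`, `g` is bounded by `M`. -/
def Bd (g : V → W) (r M : ℝ) : Prop := ∀ y ∈ Metric.ball 0 r, ‖g y‖ ≤ M

/-- On the ball of radius `r`, `g` is `γ`-Hoelder with constant `M`. -/
def Ho (γ : ℝ) (g : V → W) (r M : ℝ) : Prop :=
  ∀ y ∈ Metric.ball 0 r, ∀ z ∈ Metric.ball 0 r, ‖g y - g z‖ ≤ M * ‖y - z‖ ^ γ

/-- All four parts of the `C^{2,γ}` norm on the ball of radius `r` are at most `M`. -/
def CH (γ : ℝ) (ψ : V → ℝ) (r M : ℝ) : Prop :=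
  ContDiffOn ℝ 2 ψ (Metric.ball 0 r) ∧ Bd ψ r M ∧ Bd (fderiv ℝ ψ) r M ∧ Bd (D2 ψ) r M ∧
    Ho γ (D2 ψ) r M

/-- Near `x`, the set `Ω` is a rotated translate of `A`. -/
def Loc (Ω A : Set V) (x : V) (r : ℝ) : Prop :=
  ∃ R : V ≃ₗᵢ[ℝ] V, ∀ z ∈ Metric.ball x r, (z ∈ Ω ↔ R (z - x) ∈ A)

end

/-- Uniformly `C^{2,γ}` domain. -/
def Unif {n : ℕ} (γ : ℝ) (Ω : Set (E (n + 1))) : Prop :=
  ∃ r > 0, ∃ M : ℝ, ∀ x ∈ frontier Ω, ∃ ψ : E n → ℝ, CH γ ψ r M ∧ Loc Ω (Epi ψ) x r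

/-- Positive bounded classical solution of `-Δ u = f u` in `Ω`, `u = 0` on the boundary. -/
def IsSol {d : ℕ} (Ω : Set (E d)) (f : ℝ → ℝ) (u : E d → ℝ) : Prop :=
  ContDiffOn ℝ 2 u Ω ∧ ContinuousOn u (closure Ω) ∧ (∃ C : ℝ, ∀ x ∈ Ω, |u x| ≤ C) ∧
    (∀ x ∈ Ω, -Δ u x = f (u x)) ∧ (∀ x ∈ frontier Ω, u x = 0) ∧ ∀ x ∈ Ω, 0 < u x

open Pool.Agent.H.MP_0f8a1e_an Pool.Agent.H.MP_3eb465_an in
theorem result : ∃ (n : ℕ) (γ : ℝ) (f : ℝ → ℝ) (φ : E n → ℝ), 1 ≤ n ∧ 0 < γ ∧ γ ≤ 1 ∧ React γ f ∧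
    ContDiff ℝ ∞ φ ∧ Unif γ (Epi φ) ∧
    ∃ u v, IsSol (Epi φ) f u ∧ IsSol (Epi φ) f v ∧ ∃ x ∈ Epi φ, u x ≠ v x := by
  have e : Epi ph = Om := Om_eq.symm
  have s : ∀ u, Sol Om ff u → IsSol Om ff u := fun u hu =>
    ⟨fun x hx => (hu.c2 x hx).contDiffWithinAt, hu.c.continuousOn, ⟨1, fun x _ =>
      abs_le.2 ⟨by linarith [(hu.mem x).1], hu.le x⟩⟩, fun x hx => by rw [lap_Δ, hu.eq x hx, neg_neg],
      fun x hx => hu.z x fun h' => hx.2 (Om_o.interior_eq.symm ▸ h'), hu.pos⟩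
  obtain ⟨u, v, hu, hv, h⟩ := two
  obtain ⟨r, r0, M, hM⟩ := Om_ch
  refine ⟨9, 1, ff, ph, by norm_num, one_pos, le_rfl, ⟨ff1, ⟨8, fun s t => ?_⟩, ff_eq (by norm_num),
    by norm_num [ff], fun t h0 h1 => ?_, by norm_num [ff_dd], fun t ht => ?_, by norm_num [ff_dd]⟩,
    ph_c, e ▸ ⟨r, r0, M, fun x hx => ?_⟩, e ▸ ⟨u, v, s u hu, s v hv, h⟩⟩
  · have := abs_max_sub_max_le_abs (t - 1 / 2) (s - 1 / 2) 0
    rw [sub_sub_sub_cancel_right, abs_sub_comm t] at this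
    rw [ff_dd, Real.rpow_one, sub_sub_sub_cancel_left, ← mul_sub, abs_mul, abs_of_pos (by norm_num)]
    linarith
  · rcases le_total t (1 / 2) with h | h
    · rwa [ff_eq h]
    · rw [ff, max_eq_left (by linarith)]; nlinarith
  · rw [ff, max_eq_left (by linarith)]; nlinarith
  obtain ⟨F, ⟨R, φ, a1, a2, a3⟩, a4⟩ := hM x hx
  exact ⟨φ, ⟨fun y hy => (a1 y hy).1.contDiffWithinAt, fun y hy => (a1 y hy).2.1,
    fun y hy => (a1 y hy).2.2.1, fun y hy => (a1 y hy).2.2.2,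
    fun y hy z hz => (Real.rpow_one _).symm ▸ a2 y hy z hz⟩, R,
    fun z hz => (a4 z).trans (a3 _ (by simpa [dist_eq_norm] using hz))⟩

end Pool.Agent.Results.MP_3eb465_an.No
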